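import Mathlib
import Pool.Agent.Helper564.Desc.Cheb

/-!
# Exceptional residue classes and the level of distribution of the primes
-/

set_option autoImplicit false

namespace Pool.Agent.Y856.Ex

open Finset

/-- the number of primes `p ≤ x` with `p ≡ l (mod d)` -/
noncomputable def primesAP (x : ℝ) (d l : ℕ) : ℕ :=
  ((Icc 1 ⌊x⌋₊).filter (fun p => p.Prime ∧ p ≡ l [MOD d])).card

/-- `li x = ∫_2^x dt / log t` -/
noncomputable def li (x : ℝ) : ℝ := ∫ t in (2 : ℝ)..x, 1 / Real.log t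

/-- `E(x;d,l) = π(x;d,l) - li x / φ(d)` -/
noncomputable def E (x : ℝ) (d l : ℕ) : ℝ := primesAP x d l - li x / (Nat.totient d : ℝ)

/-- the maximum of `|E(x;d,l)|` over the residues `1 ≤ l ≤ d` coprime to `d` and not in `Z`
(`0` if there is none) -/
noncomputable def maxE (x : ℝ) (d : ℕ) (Z : Finset ℕ) : ℝ :=
  ⨆ l : {l : ℕ // l ∈ Icc 1 d ∧ l.Coprime d ∧ l ∉ Z}, |E x d l|

/-- the squarefree `d ≤ D` -/
noncomputable def sqf (D : ℝ) : Finset ℕ := (Icc 1 ⌊D⌋₊).filter Squarefree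

open Classical in
/-- the squarefree `m ≤ D` having a prime factor `r` with `R/4 < r ≤ R` -/
noncomputable def mods (D R : ℝ) : Finset ℕ :=
  (Icc 1 ⌊D⌋₊).filter
    (fun m => Squarefree m ∧ ∃ r : ℕ, r.Prime ∧ r ∣ m ∧ R / 4 < (r : ℝ) ∧ (r : ℝ) ≤ R)

instance (d : ℕ) (Z : Finset ℕ) : Finite {l : ℕ // l ∈ Icc 1 d ∧ l.Coprime d ∧ l ∉ Z} :=
  Set.Finite.subset (Icc 1 d).finite_toSet (fun _ h => h.1)

theorem maxE_nonneg (x : ℝ) (d : ℕ) (Z : Finset ℕ) : 0 ≤ maxE x d Z :=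
  Real.iSup_nonneg (fun _ => abs_nonneg _)

theorem le_maxE {x : ℝ} {d : ℕ} {Z : Finset ℕ} {l : ℕ} (h1 : l ∈ Icc 1 d) (h2 : l.Coprime d)
    (h3 : l ∉ Z) : |E x d l| ≤ maxE x d Z := by
  unfold maxE
  exact le_ciSup (f := fun l : {l : ℕ // l ∈ Icc 1 d ∧ l.Coprime d ∧ l ∉ Z} => |E x d l|)
    (Set.finite_range _).bddAbove ⟨l, h1, h2, h3⟩

theorem maxE_le {x : ℝ} {d : ℕ} {Z : Finset ℕ} {c : ℝ} (hc : 0 ≤ c)
    (h : ∀ l ∈ Icc 1 d, l.Coprime d → l ∉ Z → |E x d l| ≤ c) : maxE x d Z ≤ c :=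
  Real.iSup_le (fun l => h l.1 l.2.1 l.2.2.1 l.2.2.2) hc

theorem li_nonneg {x : ℝ} (hx : 3 ≤ x) : 0 ≤ li x := by
  unfold li
  apply intervalIntegral.integral_nonneg (by linarith)
  intro t ht
  have : 0 < Real.log t := Real.log_pos (by linarith [ht.1])
  positivity

theorem li_le {x : ℝ} (hx : 3 ≤ x) : li x ≤ 2 * x := by
  unfold li
  have h1 : ∫ t in (2 : ℝ)..x, 1 / Real.log t ≤ ∫ t in (2 : ℝ)..x, (2 : ℝ) := by
    apply intervalIntegral.integral_mono_on (by linarith)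
    · apply ContinuousOn.intervalIntegrable
      rw [Set.uIcc_of_le (by linarith : (2 : ℝ) ≤ x)]
      apply ContinuousOn.div continuousOn_const
      · exact Real.continuousOn_log.mono (fun t ht => by
          have : (2 : ℝ) ≤ t := ht.1
          simp only [Set.mem_compl_iff, Set.mem_singleton_iff]; linarith)
      · intro t ht
        exact (Real.log_pos (by linarith [ht.1])).ne'
    · exact intervalIntegrable_const
    · intro t ht
      have h2 : Real.log 2 ≤ Real.log t := Real.log_le_log (by norm_num) ht.1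
      have h3 := Real.log_two_gt_d9
      rw [div_le_iff₀ (by linarith)]
      linarith
  have h2 : ∫ t in (2 : ℝ)..x, (2 : ℝ) = (x - 2) * 2 := by
    rw [intervalIntegral.integral_const, smul_eq_mul]
  linarith

/-- number of integers up to `N` in a residue class -/
theorem card_class_le (N m l : ℕ) (hm : 1 ≤ m) :
    (((Icc 1 N).filter (fun n => n ≡ l [MOD m])).card : ℝ) ≤ (N : ℝ) / m + 1 := by
  have h1 : (((Ioc 0 N).filter (fun n => n ≡ l [MOD m])).card : ℤ) =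
      max (⌊((N : ℚ) - l) / m⌋ - ⌊((0 : ℕ) - (l : ℚ)) / m⌋) 0 :=
    Nat.Ioc_filter_modEq_card 0 N (by omega) l
  have h2 : (Icc 1 N) = Ioc 0 N := by ext; simp [Nat.succ_le_iff]
  rw [h2]
  have hm' : (0 : ℚ) < m := by exact_mod_cast hm
  have h3 : (⌊((N : ℚ) - l) / m⌋ : ℚ) ≤ ((N : ℚ) - l) / m := Int.floor_le _
  have h4 : ((0 : ℕ) - (l : ℚ)) / m - 1 < (⌊((0 : ℕ) - (l : ℚ)) / m⌋ : ℚ) := Int.sub_one_lt_floor _
  have h5 : ((((Ioc 0 N).filter (fun n => n ≡ l [MOD m])).card : ℤ) : ℚ) ≤ (N : ℚ) / m + 1 := by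
    rw [h1]
    push_cast
    apply max_le
    · have : ((N : ℚ) - l) / m - (((0 : ℕ) - (l : ℚ)) / m - 1) = (N : ℚ) / m + 1 := by
        field_simp; push_cast; ring
      push_cast at this h4 h3 ⊢
      linarith
    · positivity
  have h6 : ((((((Ioc 0 N).filter (fun n => n ≡ l [MOD m])).card : ℤ) : ℚ)) : ℝ) ≤
      (((N : ℚ) / m + 1 : ℚ) : ℝ) := by exact_mod_cast h5
  push_cast at h6
  exact h6

theorem triv {x : ℝ} (hx : 3 ≤ x) {m l : ℕ} (hm : 1 ≤ m) (hmx : (m : ℝ) ≤ x) :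
    |E x m l| ≤ 4 * x / (Nat.totient m : ℝ) := by
  have hphi : 0 < (Nat.totient m : ℝ) := by exact_mod_cast Nat.totient_pos.2 hm
  have hphi2 : (Nat.totient m : ℝ) ≤ m := by exact_mod_cast Nat.totient_le m
  have hm0 : (0 : ℝ) < m := by exact_mod_cast hm
  have h1 : (primesAP x m l : ℝ) ≤ 2 * x / (Nat.totient m : ℝ) := by
    have h2 : (primesAP x m l : ℝ) ≤ (⌊x⌋₊ : ℝ) / m + 1 := by
      refine le_trans ?_ (card_class_le ⌊x⌋₊ m l hm)
      unfold primesAP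
      exact_mod_cast Finset.card_le_card (fun p hp => by
        rw [mem_filter] at hp ⊢
        exact ⟨hp.1, hp.2.2⟩)
    have h3 : (⌊x⌋₊ : ℝ) ≤ x := Nat.floor_le (by linarith)
    have h4 : (⌊x⌋₊ : ℝ) / m ≤ x / m := by gcongr
    have h5 : 1 ≤ x / m := by rwa [le_div_iff₀ hm0, one_mul]
    have h6 : x / m ≤ x / (Nat.totient m : ℝ) :=
      div_le_div_of_nonneg_left (by linarith) hphi hphi2
    have h7 : 2 * x / (Nat.totient m : ℝ) = x / (Nat.totient m : ℝ) + x / (Nat.totient m : ℝ) := by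
      ring
    linarith
  have h2 : li x / (Nat.totient m : ℝ) ≤ 2 * x / (Nat.totient m : ℝ) := by
    gcongr; exact li_le hx
  have h3 : 0 ≤ li x / (Nat.totient m : ℝ) := div_nonneg (li_nonneg hx) hphi.le
  have h4 : (0 : ℝ) ≤ primesAP x m l := Nat.cast_nonneg _
  have h5 : 4 * x / (Nat.totient m : ℝ) = 2 * x / (Nat.totient m : ℝ) + 2 * x / (Nat.totient m : ℝ) := by
    ring
  unfold E
  rw [abs_le]
  constructor <;> linarith

end Pool.Agent.Y856.Ex
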