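import Mathlib
import Pool.Agent.Y856.Ex.Main

/-!
# Lifting residue classes modulo `d` to residue classes modulo `d r`
-/

set_option autoImplicit false

namespace Pool.Agent.Y856.Ex

open Finset

theorem lift_inj {d r : ℕ} (_hd : 1 ≤ d) (l : ℕ) {k k' : ℕ} (hk : k < r) (hk' : k' < r)
    (h : l + k * d ≡ l + k' * d [MOD d * r]) : k = k' := by
  have h1 : k * d ≡ k' * d [MOD d * r] := Nat.ModEq.add_left_cancel' l h
  have h2 : d * k ≡ d * k' [MOD d * r] := by rwa [mul_comm k d, mul_comm k' d] at h1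
  have h3 : k ≡ k' [MOD r] := Nat.ModEq.mul_left_cancel' (by omega) h2
  rw [Nat.ModEq, Nat.mod_eq_of_lt hk, Nat.mod_eq_of_lt hk'] at h3
  exact h3

theorem lift_exists {d r : ℕ} (hd : 1 ≤ d) (hr : 1 ≤ r) {l p : ℕ} (h : p ≡ l [MOD d]) :
    ∃ k, k < r ∧ p ≡ l + k * d [MOD d * r] := by
  obtain ⟨t, ht⟩ : (d : ℤ) ∣ (p : ℤ) - l := by
    have := (Nat.modEq_iff_dvd.1 h)
    rw [← neg_sub]; exact (dvd_neg.2 this)
  have hr' : (0 : ℤ) < r := by exact_mod_cast hr
  refine ⟨(t % r).toNat, ?_, ?_⟩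
  · have := Int.emod_lt_of_pos t hr'
    have h2 := Int.emod_nonneg t hr'.ne'
    omega
  · rw [Nat.modEq_iff_dvd]
    have h2 : (((t % r).toNat : ℕ) : ℤ) = t % r := Int.toNat_of_nonneg (Int.emod_nonneg t hr'.ne')
    push_cast
    rw [h2]
    have h3 : (p : ℤ) = l + d * t := by linarith
    rw [h3]
    have h4 : t % r - t = -(r * (t / r)) := by
      have := Int.emod_add_mul_ediv t r
      linarith
    have h5 : (l : ℤ) + t % r * d - (l + d * t) = d * (t % r - t) := by ring
    rw [h5, h4]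
    exact ⟨-(t / r), by ring⟩

/-- the good lifts -/
def good (d r l : ℕ) : Finset ℕ := (range r).filter (fun k => ¬ r ∣ l + k * d)

theorem good_card {d r : ℕ} (hr : r.Prime) (hd : ¬ r ∣ d) (l : ℕ) : (good d r l).card = r - 1 := by
  classical
  have hcop : Nat.Coprime r d := (Nat.Prime.coprime_iff_not_dvd hr).2 hd
  have hinj : ∀ k ∈ range r, ∀ k' ∈ range r, (l + k * d) % r = (l + k' * d) % r → k = k' := by
    intro k hk k' hk' h
    rw [mem_range] at hk hk'
    have h1 : k * d ≡ k' * d [MOD r] := Nat.ModEq.add_left_cancel' l h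
    have h2 : k ≡ k' [MOD r] := Nat.ModEq.cancel_right_of_coprime hcop h1
    rw [Nat.ModEq, Nat.mod_eq_of_lt hk, Nat.mod_eq_of_lt hk'] at h2
    exact h2
  have himg : (range r).image (fun k => (l + k * d) % r) = range r := by
    apply Finset.eq_of_subset_of_card_le
    · intro y hy
      rw [mem_image] at hy
      obtain ⟨k, _, rfl⟩ := hy
      rw [mem_range]
      exact Nat.mod_lt _ hr.pos
    · rw [card_image_of_injOn (fun a ha b hb h => hinj a ha b hb h)]
  have h0 : (0 : ℕ) ∈ (range r).image (fun k => (l + k * d) % r) := by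
    rw [himg, mem_range]; exact hr.pos
  rw [mem_image] at h0
  obtain ⟨k0, hk0, hk0'⟩ := h0
  have : good d r l = (range r).erase k0 := by
    ext k
    unfold good
    rw [mem_filter, mem_erase]
    constructor
    · rintro ⟨h1, h2⟩
      refine ⟨fun h => h2 ?_, h1⟩
      subst h
      exact Nat.dvd_of_mod_eq_zero hk0'
    · rintro ⟨h1, h2⟩
      refine ⟨h2, fun h => h1 ?_⟩
      apply hinj k h2 k0 hk0
      rw [hk0', Nat.mod_eq_zero_of_dvd h]
  rw [this, card_erase_of_mem hk0, card_range]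

theorem count_lift (x : ℝ) {d r : ℕ} (hd1 : 1 ≤ d) (hr : r.Prime) (l : ℕ) :
    ∃ θ : ℕ, θ ≤ 1 ∧
      primesAP x d l = ∑ k ∈ good d r l, primesAP x (d * r) (l + k * d) + θ := by
  classical
  set A := (Icc 1 ⌊x⌋₊).filter (fun p => p.Prime ∧ p ≡ l [MOD d]) with hA
  have hsplit : A.card = (A.erase r).card + (if r ∈ A then 1 else 0) := by
    split_ifs with h
    · rw [card_erase_add_one h]
    · rw [erase_eq_of_notMem h, add_zero]
  refine ⟨if r ∈ A then 1 else 0, by split_ifs <;> simp, ?_⟩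
  have hbi : A.erase r = (good d r l).biUnion
      (fun k => (Icc 1 ⌊x⌋₊).filter (fun p => p.Prime ∧ p ≡ l + k * d [MOD d * r])) := by
    ext p
    rw [mem_erase, mem_biUnion, hA, mem_filter]
    constructor
    · rintro ⟨hpr, hp1, hp2, hp3⟩
      obtain ⟨k, hk, hk2⟩ := lift_exists (r := r) hd1 hr.one_le hp3
      refine ⟨k, ?_, ?_⟩
      · unfold good
        rw [mem_filter, mem_range]
        refine ⟨hk, fun hdiv => hpr ?_⟩
        have h1 : p ≡ l + k * d [MOD r] := hk2.of_mul_left d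
        have h2 : r ∣ p := (h1.dvd_iff (dvd_refl r)).2 hdiv
        exact ((Nat.prime_dvd_prime_iff_eq hr hp2).1 h2).symm
      · rw [mem_filter]
        exact ⟨hp1, hp2, hk2⟩
    · rintro ⟨k, hk, hp⟩
      rw [mem_filter] at hp
      obtain ⟨hp1, hp2, hp3⟩ := hp
      unfold good at hk
      rw [mem_filter] at hk
      refine ⟨fun h => hk.2 ?_, hp1, hp2, ?_⟩
      · have h1 : p ≡ l + k * d [MOD r] := hp3.of_mul_left d
        exact (h1.dvd_iff (dvd_refl r)).1 (by rw [h])
      · have h1 : p ≡ l + k * d [MOD d] := hp3.of_mul_right r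
        refine h1.trans ?_
        have h2 : k * d ≡ 0 [MOD d] := by
          rw [Nat.modEq_zero_iff_dvd]; exact dvd_mul_left d k
        have := (Nat.ModEq.refl l).add h2
        simpa using this
  have hdisj : ∀ k ∈ good d r l, ∀ k' ∈ good d r l, k ≠ k' → Disjoint
      ((Icc 1 ⌊x⌋₊).filter (fun p => p.Prime ∧ p ≡ l + k * d [MOD d * r]))
      ((Icc 1 ⌊x⌋₊).filter (fun p => p.Prime ∧ p ≡ l + k' * d [MOD d * r])) := by
    intro k hk k' hk' hne
    rw [Finset.disjoint_left]
    intro p hp hp'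
    rw [mem_filter] at hp hp'
    apply hne
    unfold good at hk hk'
    rw [mem_filter, mem_range] at hk hk'
    exact lift_inj hd1 l hk.1 hk'.1 (hp.2.2.symm.trans hp'.2.2)
  have h2 : (A.erase r).card = ∑ k ∈ good d r l, primesAP x (d * r) (l + k * d) := by
    rw [hbi, card_biUnion hdisj]
    rfl
  have h3 : primesAP x d l = A.card := rfl
  rw [h3, hsplit, h2]

theorem lift_bound {x : ℝ} (hx : 3 ≤ x) {d r : ℕ} (hd1 : 1 ≤ d) (hr : r.Prime) (hrd : ¬ r ∣ d)
    (hdr : ((d * r : ℕ) : ℝ) ≤ x) {l : ℕ} (hl : l ∈ Icc 1 d) (hlc : l.Coprime d) (Z : Finset ℕ) :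
    |E x d l| ≤ (r : ℝ) * maxE x (d * r) Z +
      (Z.card : ℝ) * (4 * x / (Nat.totient (d * r) : ℝ)) + 1 := by
  classical
  obtain ⟨θ, hθ, hcount⟩ := count_lift x hd1 hr l
  have hcop : Nat.Coprime d r := ((Nat.Prime.coprime_iff_not_dvd hr).2 hrd).symm
  have hphi : Nat.totient (d * r) = Nat.totient d * (r - 1) := by
    rw [Nat.totient_mul hcop, Nat.totient_prime hr]
  have hr1 : 1 ≤ r - 1 := by have := hr.two_le; omega
  have hphid : 0 < (Nat.totient d : ℝ) := by exact_mod_cast Nat.totient_pos.2 hd1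
  have hr1' : (0 : ℝ) < ((r - 1 : ℕ) : ℝ) := by exact_mod_cast hr1
  have hE : E x d l = ∑ k ∈ good d r l, E x (d * r) (l + k * d) + θ := by
    unfold E
    rw [sum_sub_distrib, sum_const, good_card hr hrd, nsmul_eq_mul, hcount, hphi]
    push_cast
    field_simp
    ring
  have hmdr : 1 ≤ d * r := Nat.mul_pos hd1 hr.pos
  have hterm : ∀ k ∈ good d r l, |E x (d * r) (l + k * d)| ≤ maxE x (d * r) Z +
      (if l + k * d ∈ Z then 4 * x / (Nat.totient (d * r) : ℝ) else 0) := by
    intro k hk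
    unfold good at hk
    rw [mem_filter, mem_range] at hk
    rw [mem_Icc] at hl
    split_ifs with h
    · have := triv (l := l + k * d) hx hmdr hdr
      have h2 := maxE_nonneg x (d * r) Z
      linarith
    · rw [add_zero]
      apply le_maxE
      · rw [mem_Icc]
        constructor
        · omega
        · have : k + 1 ≤ r := hk.1
          calc l + k * d ≤ d + k * d := by omega
            _ = (k + 1) * d := by ring
            _ ≤ r * d := Nat.mul_le_mul_right d this
            _ = d * r := mul_comm _ _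
      · apply Nat.Coprime.mul_right
        · rw [Nat.coprime_add_mul_right_left]
          exact hlc
        · exact ((Nat.Prime.coprime_iff_not_dvd hr).2 hk.2).symm
      · exact h
  have h1 : |E x d l| ≤ ∑ k ∈ good d r l, |E x (d * r) (l + k * d)| + 1 := by
    rw [hE]
    refine (abs_add_le _ _).trans ?_
    have h2 : |(θ : ℝ)| ≤ 1 := by
      rw [abs_of_nonneg (Nat.cast_nonneg _)]
      exact_mod_cast hθ
    have h3 := Finset.abs_sum_le_sum_abs (fun k => E x (d * r) (l + k * d)) (good d r l)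
    linarith
  have h2 : ∑ k ∈ good d r l, |E x (d * r) (l + k * d)| ≤
      ∑ k ∈ good d r l, (maxE x (d * r) Z +
      (if l + k * d ∈ Z then 4 * x / (Nat.totient (d * r) : ℝ) else 0)) :=
    Finset.sum_le_sum hterm
  rw [sum_add_distrib, sum_const, good_card hr hrd, nsmul_eq_mul, ← sum_filter, sum_const,
    nsmul_eq_mul] at h2
  have h3 : (((good d r l).filter (fun k => l + k * d ∈ Z)).card : ℝ) ≤ Z.card := by
    refine Nat.cast_le.2 (card_le_card_of_injOn (fun k => l + k * d) ?_ ?_)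
    · intro k hk
      rw [mem_coe, mem_filter] at hk
      exact hk.2
    · intro k _ k' _ h
      have h4 : l + k * d = l + k' * d := h
      have h5 : k * d = k' * d := by omega
      exact Nat.eq_of_mul_eq_mul_right hd1 h5
  have h4 : ((r - 1 : ℕ) : ℝ) ≤ r := by exact_mod_cast Nat.sub_le r 1
  have h5 : 0 ≤ 4 * x / (Nat.totient (d * r) : ℝ) := by positivity
  have h6 : ((r - 1 : ℕ) : ℝ) * maxE x (d * r) Z ≤ (r : ℝ) * maxE x (d * r) Z :=
    mul_le_mul_of_nonneg_right h4 (maxE_nonneg _ _ _)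
  have h7 := mul_le_mul_of_nonneg_right h3 h5
  linarith

end Pool.Agent.Y856.Ex
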