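import Mathlib
import Pool.Agent.Y856.Ex.Lift

/-!
# The descent inequality
-/

set_option autoImplicit false

namespace Pool.Agent.Y856.Ex

open Finset

open Classical in
/-- the primes `R/4 < r ≤ R` -/
noncomputable def PR (R : ℝ) : Finset ℕ :=
  (Icc 1 ⌊R⌋₊).filter (fun r => r.Prime ∧ R / 4 < (r : ℝ))

theorem mem_PR {R : ℝ} (hR : 0 ≤ R) {r : ℕ} :
    r ∈ PR R ↔ r.Prime ∧ R / 4 < (r : ℝ) ∧ (r : ℝ) ≤ R := by
  unfold PR
  rw [mem_filter, mem_Icc]
  constructor
  · rintro ⟨⟨h1, h2⟩, h3, h4⟩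
    exact ⟨h3, h4, (Nat.cast_le.2 h2).trans (Nat.floor_le hR)⟩
  · rintro ⟨h1, h2, h3⟩
    exact ⟨⟨h1.one_le, Nat.le_floor h3⟩, h1, h2⟩

theorem PR_card {R : ℝ} (hR : 10 ^ 8 ≤ R) : R / 4 ≤ ((PR R).card : ℝ) * Real.log R := by
  apply Pool.Agent.Descents.Cheb.cheb_count hR
  · intro p hp h1 h2
    exact (mem_PR (by linarith)).2 ⟨hp, h1, h2⟩
  · intro p hp
    have := (mem_PR (by linarith)).1 hp
    exact ⟨this.1.one_le, this.2.2⟩

/-- few primes of `(R/4, R]` divide a given integer -/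
theorem few_div {R : ℝ} (hR : 10 ^ 8 ≤ R) {m : ℕ} (hm : 1 ≤ m) :
    (((PR R).filter (fun r => r ∣ m)).card : ℝ) * Real.log R ≤ 2 * Real.log m := by
  have hprod : (∏ r ∈ (PR R).filter (fun r => r ∣ m), r) ∣ m := by
    apply Finset.prod_primes_dvd
    · intro r hr
      rw [mem_filter] at hr
      exact ((mem_PR (by linarith)).1 hr.1).1.prime
    · intro r hr
      rw [mem_filter] at hr
      exact hr.2
  have h1 : (∏ r ∈ (PR R).filter (fun r => r ∣ m), (r : ℝ)) ≤ m := by
    have := Nat.le_of_dvd (by omega) hprod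
    calc (∏ r ∈ (PR R).filter (fun r => r ∣ m), (r : ℝ)) =
        ((∏ r ∈ (PR R).filter (fun r => r ∣ m), r : ℕ) : ℝ) := by push_cast; rfl
      _ ≤ m := by exact_mod_cast this
  have h2 : (R / 4) ^ ((PR R).filter (fun r => r ∣ m)).card ≤
      ∏ r ∈ (PR R).filter (fun r => r ∣ m), (r : ℝ) := by
    rw [← Finset.prod_const]
    apply Finset.prod_le_prod
    · intro _ _; linarith
    · intro r hr
      rw [mem_filter] at hr
      exact ((mem_PR (by linarith)).1 hr.1).2.1.le
  have h3 := Real.log_le_log (by positivity) (h2.trans h1)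
  rw [Real.log_pow] at h3
  have h4 : Real.log R ≤ 2 * Real.log (R / 4) := by
    have h5 : 2 * Real.log (R / 4) = Real.log ((R / 4) ^ 2) := by
      rw [Real.log_pow]; norm_num
    rw [h5]
    apply Real.log_le_log (by linarith)
    nlinarith
  have h5 : (0 : ℝ) ≤ (((PR R).filter (fun r => r ∣ m)).card : ℝ) := Nat.cast_nonneg _
  nlinarith

theorem mem_mods {D R : ℝ} {m : ℕ} : m ∈ mods D R ↔ m ∈ Icc 1 ⌊D⌋₊ ∧ Squarefree m ∧
    ∃ r : ℕ, r.Prime ∧ r ∣ m ∧ R / 4 < (r : ℝ) ∧ (r : ℝ) ≤ R := by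
  simp only [mods, mem_filter]

/-- the descent for a single modulus -/
theorem one_modulus {x D R : ℝ} (hx : 3 ≤ x) (hR : 10 ^ 8 ≤ R) (hRx : 16 * Real.log x ≤ R)
    (hDx : D ≤ x) (Z : ℕ → Finset ℕ) {d : ℕ} (hd1 : 1 ≤ d) (hdD : (d : ℝ) ≤ D / R) :
    maxE x d ∅ ≤ 1 + (8 * Real.log R / R) * ∑ r ∈ (PR R).filter (fun r => ¬ r ∣ d),
      (R * maxE x (d * r) (Z (d * r)) +
        ((Z (d * r)).card : ℝ) * (4 * x / (Nat.totient (d * r) : ℝ))) := by
  have hR0 : 0 < R := by linarith
  have hlogR : 0 < Real.log R := Real.log_pos (by linarith)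
  set S := (PR R).filter (fun r => ¬ r ∣ d) with hS
  set G : ℕ → ℝ := fun r => R * maxE x (d * r) (Z (d * r)) +
        ((Z (d * r)).card : ℝ) * (4 * x / (Nat.totient (d * r) : ℝ)) with hG
  have hG0 : ∀ r, 0 ≤ G r := by
    intro r
    have := maxE_nonneg x (d * r) (Z (d * r))
    simp only [hG]
    positivity
  have hkey : ∀ r ∈ S, maxE x d ∅ ≤ G r + 1 := by
    intro r hr
    rw [hS, mem_filter] at hr
    obtain ⟨hp, h1, h2⟩ := (mem_PR hR0.le).1 hr.1
    apply maxE_le (by linarith [hG0 r])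
    intro l hl hlc _
    have hdr : ((d * r : ℕ) : ℝ) ≤ x := by
      push_cast
      rw [le_div_iff₀ hR0] at hdD
      have : (d : ℝ) * r ≤ d * R := mul_le_mul_of_nonneg_left h2 (Nat.cast_nonneg _)
      linarith
    have h3 := lift_bound hx hd1 hp hr.2 hdr hl hlc (Z (d * r))
    have h4 : (r : ℝ) * maxE x (d * r) (Z (d * r)) ≤ R * maxE x (d * r) (Z (d * r)) :=
      mul_le_mul_of_nonneg_right h2 (maxE_nonneg _ _ _)
    simp only [hG]
    linarith
  have hsum : (S.card : ℝ) * (maxE x d ∅ - 1) ≤ ∑ r ∈ S, G r := by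
    have := Finset.sum_le_sum (fun r hr => (show maxE x d ∅ - 1 ≤ G r by linarith [hkey r hr]))
    rw [sum_const, nsmul_eq_mul] at this
    exact this
  have hsum0 : 0 ≤ ∑ r ∈ S, G r := Finset.sum_nonneg (fun r _ => hG0 r)
  by_cases hle : maxE x d ∅ - 1 ≤ 0
  · have : 0 ≤ (8 * Real.log R / R) * ∑ r ∈ S, G r := by positivity
    linarith
  · rw [not_le] at hle
    have hcard : R / 8 ≤ (S.card : ℝ) * Real.log R := by
      have h1 := PR_card hR
      have h2 := few_div hR hd1
      have h3 : ((PR R).filter (fun r => r ∣ d)).card + S.card = (PR R).card := by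
        rw [hS]; exact Finset.card_filter_add_card_filter_not _
      have h3' : (((PR R).filter (fun r => r ∣ d)).card : ℝ) + S.card = (PR R).card := by
        exact_mod_cast h3
      have h4 : Real.log d ≤ Real.log x := by
        apply Real.log_le_log (by exact_mod_cast hd1)
        have : D / R ≤ D := by
          apply div_le_self _ (by linarith)
          by_contra hneg
          rw [not_le] at hneg
          have : D / R < 0 := div_neg_of_neg_of_pos hneg hR0
          have h5 : (0 : ℝ) ≤ d := Nat.cast_nonneg _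
          linarith
        linarith
      rw [← h3'] at h1
      nlinarith
    have h1 : (R / 8) * (maxE x d ∅ - 1) ≤ Real.log R * ∑ r ∈ S, G r := by
      calc (R / 8) * (maxE x d ∅ - 1) ≤ ((S.card : ℝ) * Real.log R) * (maxE x d ∅ - 1) :=
            mul_le_mul_of_nonneg_right hcard hle.le
        _ = Real.log R * ((S.card : ℝ) * (maxE x d ∅ - 1)) := by ring
        _ ≤ _ := mul_le_mul_of_nonneg_left hsum hlogR.le
    have h2 : (8 * Real.log R / R) * ∑ r ∈ S, G r = (8 / R) * (Real.log R * ∑ r ∈ S, G r) := by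
      ring
    have h3 : (8 / R) * ((R / 8) * (maxE x d ∅ - 1)) = maxE x d ∅ - 1 := by
      field_simp
    have h4 := mul_le_mul_of_nonneg_left h1 (show 0 ≤ 8 / R by positivity)
    rw [h3] at h4
    rw [h2]
    linarith

/-- regrouping -/
theorem regroup {x D R : ℝ} (_hx : 3 ≤ x) (hR : 10 ^ 8 ≤ R) (hDx : D ≤ x)
    (F : ℕ → ℝ) (hF : ∀ m, 0 ≤ F m) :
    Real.log R * ∑ d ∈ sqf (D / R), ∑ r ∈ (PR R).filter (fun r => ¬ r ∣ d), F (d * r) ≤
      2 * Real.log x * ∑ m ∈ mods D R, F m := by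
  classical
  have hR0 : 0 < R := by linarith
  have hlogR : 0 < Real.log R := Real.log_pos (by linarith)
  have h1 : ∑ d ∈ sqf (D / R), ∑ r ∈ (PR R).filter (fun r => ¬ r ∣ d), F (d * r) ≤
      ∑ r ∈ PR R, ∑ m ∈ (mods D R).filter (fun m => r ∣ m), F m := by
    have h2 : ∑ d ∈ sqf (D / R), ∑ r ∈ (PR R).filter (fun r => ¬ r ∣ d), F (d * r) =
        ∑ r ∈ PR R, ∑ d ∈ (sqf (D / R)).filter (fun d => ¬ r ∣ d), F (d * r) := by
      simp_rw [sum_filter]
      exact sum_comm
    rw [h2]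
    apply Finset.sum_le_sum
    intro r hr
    obtain ⟨hp, hr1, hr2⟩ := (mem_PR hR0.le).1 hr
    have hinj : Set.InjOn (fun d => d * r) ((sqf (D / R)).filter (fun d => ¬ r ∣ d) : Set ℕ) := by
      intro a _ b _ h
      exact Nat.eq_of_mul_eq_mul_right hp.pos h
    rw [← Finset.sum_image (f := F) hinj]
    apply Finset.sum_le_sum_of_subset_of_nonneg
    · intro m hm
      rw [mem_image] at hm
      obtain ⟨d, hd, rfl⟩ := hm
      rw [mem_filter] at hd
      obtain ⟨hd, hrd⟩ := hd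
      unfold sqf at hd
      rw [mem_filter, mem_Icc] at hd
      obtain ⟨⟨hd1, hd2⟩, hd3⟩ := hd
      rw [mem_filter, mem_mods, mem_Icc]
      refine ⟨⟨⟨Nat.mul_pos hd1 hp.pos, ?_⟩, ?_, r, hp, dvd_mul_left r d, hr1, hr2⟩,
        dvd_mul_left r d⟩
      · apply Nat.le_floor
        push_cast
        have h3 : (d : ℝ) ≤ D / R := by
          have : (0 : ℝ) ≤ D / R := by
            by_contra hneg
            rw [not_le] at hneg
            rw [Nat.floor_of_nonpos hneg.le] at hd2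
            omega
          exact (Nat.cast_le.2 hd2).trans (Nat.floor_le this)
        rw [le_div_iff₀ hR0] at h3
        have : (d : ℝ) * r ≤ d * R := mul_le_mul_of_nonneg_left hr2 (Nat.cast_nonneg _)
        linarith
      · rw [Nat.squarefree_mul ((Nat.Prime.coprime_iff_not_dvd hp).2 hrd).symm]
        exact ⟨hd3, hp.squarefree⟩
    · intro m _ _; exact hF m
  have h2 : ∑ r ∈ PR R, ∑ m ∈ (mods D R).filter (fun m => r ∣ m), F m =
      ∑ m ∈ mods D R, (((PR R).filter (fun r => r ∣ m)).card : ℝ) * F m := by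
    simp_rw [sum_filter]
    rw [sum_comm]
    apply Finset.sum_congr rfl
    intro m _
    rw [← sum_filter, sum_const, nsmul_eq_mul]
  have h3 : Real.log R * ∑ m ∈ mods D R, (((PR R).filter (fun r => r ∣ m)).card : ℝ) * F m ≤
      2 * Real.log x * ∑ m ∈ mods D R, F m := by
    rw [mul_sum, mul_sum]
    apply Finset.sum_le_sum
    intro m hm
    rw [mem_mods, mem_Icc] at hm
    have h4 := few_div hR hm.1.1
    have h5 : Real.log m ≤ Real.log x := by
      apply Real.log_le_log (by exact_mod_cast hm.1.1)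
      have : (0 : ℝ) ≤ D := by
        by_contra hneg
        rw [not_le] at hneg
        rw [Nat.floor_of_nonpos hneg.le] at hm
        omega
      exact ((Nat.cast_le.2 hm.1.2).trans (Nat.floor_le this)).trans hDx
    calc Real.log R * ((((PR R).filter (fun r => r ∣ m)).card : ℝ) * F m) =
        ((((PR R).filter (fun r => r ∣ m)).card : ℝ) * Real.log R) * F m := by ring
      _ ≤ (2 * Real.log x) * F m := mul_le_mul_of_nonneg_right (by linarith) (hF m)
  calc _ ≤ Real.log R * ∑ r ∈ PR R, ∑ m ∈ (mods D R).filter (fun m => r ∣ m), F m :=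
        mul_le_mul_of_nonneg_left h1 hlogR.le
    _ ≤ _ := by rw [h2]; exact h3

/-- the descent inequality -/
theorem descent {x D R : ℝ} (hx : 3 ≤ x) (hR : 10 ^ 8 ≤ R) (hRx : 16 * Real.log x ≤ R)
    (hD : 0 ≤ D) (hDx : D ≤ x) (Z : ℕ → Finset ℕ) :
    ∑ d ∈ sqf (D / R), maxE x d ∅ ≤ 16 * Real.log x * ∑ m ∈ mods D R,
      (maxE x m (Z m) + 4 * x / R * (((Z m).card : ℝ) / (Nat.totient m : ℝ))) + D / R := by
  have hR0 : 0 < R := by linarith
  have hlogR : 0 < Real.log R := Real.log_pos (by linarith)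
  set F : ℕ → ℝ := fun m => R * maxE x m (Z m) +
        ((Z m).card : ℝ) * (4 * x / (Nat.totient m : ℝ)) with hF
  have hF0 : ∀ m, 0 ≤ F m := by
    intro m
    have := maxE_nonneg x m (Z m)
    simp only [hF]
    positivity
  have h1 : ∑ d ∈ sqf (D / R), maxE x d ∅ ≤ ∑ d ∈ sqf (D / R), (1 + (8 * Real.log R / R) *
      ∑ r ∈ (PR R).filter (fun r => ¬ r ∣ d), F (d * r)) := by
    apply Finset.sum_le_sum
    intro d hd
    unfold sqf at hd
    rw [mem_filter, mem_Icc] at hd
    apply one_modulus hx hR hRx hDx Z hd.1.1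
    exact (Nat.cast_le.2 hd.1.2).trans (Nat.floor_le (by positivity))
  rw [sum_add_distrib, sum_const, nsmul_eq_mul, mul_one, ← mul_sum] at h1
  have h2 : ((sqf (D / R)).card : ℝ) ≤ D / R := by
    have : (sqf (D / R)).card ≤ ⌊D / R⌋₊ := by
      unfold sqf
      refine (card_filter_le _ _).trans ?_
      rw [Nat.card_Icc]; omega
    exact (Nat.cast_le.2 this).trans (Nat.floor_le (by positivity))
  have h3 := regroup hx hR hDx F hF0
  have h4 : (8 * Real.log R / R) * ∑ d ∈ sqf (D / R), ∑ r ∈ (PR R).filter (fun r => ¬ r ∣ d),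
      F (d * r) ≤ (8 / R) * (2 * Real.log x * ∑ m ∈ mods D R, F m) := by
    calc _ = (8 / R) * (Real.log R * ∑ d ∈ sqf (D / R),
          ∑ r ∈ (PR R).filter (fun r => ¬ r ∣ d), F (d * r)) := by ring
      _ ≤ _ := mul_le_mul_of_nonneg_left h3 (by positivity)
  have h5 : (8 / R) * (2 * Real.log x * ∑ m ∈ mods D R, F m) =
      16 * Real.log x * ∑ m ∈ mods D R,
      (maxE x m (Z m) + 4 * x / R * (((Z m).card : ℝ) / (Nat.totient m : ℝ))) := by
    have h6 : (8 / R) * (2 * Real.log x * ∑ m ∈ mods D R, F m) =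
        16 * Real.log x * ∑ m ∈ mods D R, F m / R := by
      rw [← sum_div]; ring
    rw [h6]
    congr 1
    apply Finset.sum_congr rfl
    intro m _
    simp only [hF]
    field_simp
  linarith

end Pool.Agent.Y856.Ex
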