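import Mathlib
import Pool.Agent.Y856.Ex.Avg

/-!
# Consequences for the level of distribution
-/

set_option autoImplicit false

namespace Pool.Agent.Y856.Ex

open Finset

/-- `α` is admissible: for every `U > 0` there is `C` with
`∑_{d ≤ x^α} μ²(d) max_{(l,d)=1} |E(x;d,l)| ≤ C x / (log x)^U` for all `x ≥ 3` -/
def Admissible (α : ℝ) : Prop := ∀ U : ℝ, 0 < U → ∃ C : ℝ, ∀ x : ℝ, 3 ≤ x →
  ∑ d ∈ sqf (x ^ α), maxE x d ∅ ≤ C * (x / Real.log x ^ U)

/-- the same bound at level `x^θ`, only for the squarefree moduli with a prime factor in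
`(x^κ/4, x^κ]`, and outside exceptional classes `Z_m` with
`∑ |Z_m|/φ(m) ≤ C x^κ / (log x)^U`, which may depend on `x` and `U`. -/
def Outside (θ κ : ℝ) : Prop := ∀ U : ℝ, 0 < U → ∃ C : ℝ, ∀ x : ℝ, 3 ≤ x →
  ∃ Z : ℕ → Finset ℕ,
    ∑ m ∈ mods (x ^ θ) (x ^ κ), ((Z m).card : ℝ) / (Nat.totient m : ℝ) ≤
      C * (x ^ κ / Real.log x ^ U) ∧
    ∑ m ∈ mods (x ^ θ) (x ^ κ), maxE x m (Z m) ≤ C * (x / Real.log x ^ U)

theorem Admissible.mono {α β : ℝ} (h : Admissible α) (hβ : β ≤ α) : Admissible β := by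
  intro U hU
  obtain ⟨C, hC⟩ := h U hU
  refine ⟨C, fun x hx => le_trans ?_ (hC x hx)⟩
  apply Finset.sum_le_sum_of_subset_of_nonneg
  · unfold sqf
    apply Finset.filter_subset_filter
    apply Finset.Icc_subset_Icc_right
    apply Nat.floor_le_floor
    exact Real.rpow_le_rpow_of_exponent_le (by linarith) hβ
  · intro _ _ _; exact maxE_nonneg _ _ _

theorem Admissible.outside {α κ : ℝ} (h : Admissible α) : Outside α κ := by
  intro U hU
  obtain ⟨C, hC⟩ := h U hU
  refine ⟨max C 0, fun x hx => ⟨fun _ => ∅, ?_, ?_⟩⟩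
  · have hlog : 0 < Real.log x := Real.log_pos (by linarith)
    simp only [card_empty, Nat.cast_zero, zero_div, sum_const_zero]
    positivity
  · have hlog : 0 < Real.log x := Real.log_pos (by linarith)
    refine le_trans ?_ ((hC x hx).trans (mul_le_mul_of_nonneg_right (le_max_left C 0)
      (by positivity)))
    apply Finset.sum_le_sum_of_subset_of_nonneg
    · intro m hm
      rw [mem_mods] at hm
      unfold sqf
      rw [mem_filter]
      exact ⟨hm.1, hm.2.1⟩
    · intro _ _ _; exact maxE_nonneg _ _ _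

theorem small_x {x D : ℝ} (hx : 3 ≤ x) (hDx : D ≤ x) :
    ∑ d ∈ sqf D, maxE x d ∅ ≤ 4 * x ^ 2 := by
  have h1 : ∑ d ∈ sqf D, maxE x d ∅ ≤ ∑ d ∈ sqf D, 4 * x := by
    apply Finset.sum_le_sum
    intro d hd
    unfold sqf at hd
    rw [mem_filter, mem_Icc] at hd
    have hd1 : 1 ≤ d := hd.1.1
    have hD0 : 0 ≤ D := by
      by_contra hneg
      rw [not_le] at hneg
      rw [Nat.floor_of_nonpos hneg.le] at hd
      omega
    have hdx : (d : ℝ) ≤ x := ((Nat.cast_le.2 hd.1.2).trans (Nat.floor_le hD0)).trans hDx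
    apply maxE_le (by linarith)
    intro l _ _ _
    refine (triv hx hd1 hdx).trans ?_
    apply div_le_self (by linarith)
    exact_mod_cast Nat.totient_pos.2 hd1
  rw [sum_const, nsmul_eq_mul] at h1
  have h2 : ((sqf D).card : ℝ) ≤ x := by
    by_cases hD0 : 0 ≤ D
    · have : (sqf D).card ≤ ⌊D⌋₊ := by
        unfold sqf
        refine (card_filter_le _ _).trans ?_
        rw [Nat.card_Icc]; omega
      exact ((Nat.cast_le.2 this).trans (Nat.floor_le hD0)).trans hDx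
    · rw [not_le] at hD0
      have : (sqf D).card ≤ ⌊D⌋₊ := by
        unfold sqf
        refine (card_filter_le _ _).trans ?_
        rw [Nat.card_Icc]; omega
      rw [Nat.floor_of_nonpos hD0.le] at this
      have h3 : (sqf D).card = 0 := by omega
      rw [h3]; push_cast; linarith
  nlinarith

theorem rpow_bound {κ U : ℝ} (hκ : 0 < κ) : ∃ C : ℝ, 0 < C ∧ ∀ x : ℝ, 3 ≤ x →
    x ^ (1 - κ) ≤ C * (x / Real.log x ^ U) := by
  have h1 : (fun x : ℝ => Real.log x ^ U) =o[Filter.atTop] (fun x : ℝ => x ^ κ) :=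
    isLittleO_log_rpow_rpow_atTop U hκ
  have h2 := h1.bound (c := 1) one_pos
  rw [Filter.eventually_atTop] at h2
  obtain ⟨x0, hx0⟩ := h2
  set x1 := max x0 3 with hx1
  have h31 : 3 ≤ x1 := le_max_right _ _
  have hl3 : 1 ≤ Real.log 3 := by
    rw [Real.le_log_iff_exp_le (by norm_num)]
    exact Real.exp_one_lt_d9.le.trans (by norm_num)
  have hlx1 : 0 < Real.log x1 := by
    have := hl3.trans (Real.log_le_log (by norm_num) h31); linarith
  have hpowpos : 0 < Real.log x1 ^ |U| := Real.rpow_pos_of_pos hlx1 _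
  refine ⟨1 + Real.log x1 ^ |U|, by positivity, ?_⟩
  intro x hx
  have hx0' : 0 < x := by linarith
  have hlogx : 1 ≤ Real.log x := hl3.trans (Real.log_le_log (by norm_num) hx)
  have hlogpos : 0 < Real.log x := by linarith
  have hUpos : 0 < Real.log x ^ U := Real.rpow_pos_of_pos hlogpos U
  have hxk : x ^ (1 - κ) * x ^ κ = x := by
    rw [← Real.rpow_add hx0']; simp
  have hkpos : 0 < x ^ (1 - κ) := Real.rpow_pos_of_pos hx0' _
  rw [← mul_div_assoc, le_div_iff₀ hUpos]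
  by_cases hxx : x1 ≤ x
  · have h3 := hx0 x ((le_max_left _ _).trans hxx)
    rw [one_mul, Real.norm_of_nonneg hUpos.le,
      Real.norm_of_nonneg (Real.rpow_nonneg hx0'.le _)] at h3
    calc x ^ (1 - κ) * Real.log x ^ U ≤ x ^ (1 - κ) * x ^ κ :=
          mul_le_mul_of_nonneg_left h3 hkpos.le
      _ = x := hxk
      _ ≤ (1 + Real.log x1 ^ |U|) * x := by nlinarith
  · rw [not_le] at hxx
    have h4 : Real.log x ^ U ≤ Real.log x1 ^ |U| := by
      calc Real.log x ^ U ≤ Real.log x ^ |U| :=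
            Real.rpow_le_rpow_of_exponent_le hlogx (le_abs_self U)
        _ ≤ Real.log x1 ^ |U| := by
            apply Real.rpow_le_rpow hlogpos.le _ (abs_nonneg _)
            exact Real.log_le_log hx0' hxx.le
    have h5 : x ^ (1 - κ) ≤ x := by
      calc x ^ (1 - κ) ≤ x ^ (1 : ℝ) :=
            Real.rpow_le_rpow_of_exponent_le (by linarith) (by linarith)
        _ = x := Real.rpow_one x
    calc x ^ (1 - κ) * Real.log x ^ U ≤ x * Real.log x1 ^ |U| :=
          mul_le_mul h5 h4 hUpos.le hx0'.le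
      _ ≤ (1 + Real.log x1 ^ |U|) * x := by nlinarith

theorem outside_descent {θ κ : ℝ} (hκ : 0 < κ) (_hκθ : κ ≤ θ) (hθ : θ ≤ 1)
    (h : Outside θ κ) : Admissible (θ - κ) := by
  intro U hU
  obtain ⟨C, hC⟩ := h (U + 1) (by linarith)
  obtain ⟨C2, hC2, hC2'⟩ := rpow_bound (U := U) hκ
  have hl3 : 1 ≤ Real.log 3 := by
    rw [Real.le_log_iff_exp_le (by norm_num)]
    exact Real.exp_one_lt_d9.le.trans (by norm_num)
  -- threshold
  have hlarge : ∀ᶠ x : ℝ in Filter.atTop, 10 ^ 8 ≤ x ^ κ ∧ 16 * Real.log x ≤ x ^ κ := by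
    have h1 : Filter.Tendsto (fun x : ℝ => x ^ κ) Filter.atTop Filter.atTop :=
      tendsto_rpow_atTop hκ
    have h2 := (isLittleO_log_rpow_atTop hκ).bound (show (0 : ℝ) < 1 / 16 by norm_num)
    filter_upwards [h1.eventually_ge_atTop (10 ^ 8), h2, Filter.eventually_ge_atTop 3] with
      x hx1 hx2 hx3
    refine ⟨hx1, ?_⟩
    rw [Real.norm_of_nonneg (Real.log_nonneg (by linarith)),
      Real.norm_of_nonneg (Real.rpow_nonneg (by linarith) _)] at hx2
    linarith
  rw [Filter.eventually_atTop] at hlarge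
  obtain ⟨x0, hx0⟩ := hlarge
  set x1 := max x0 3 with hx1
  have h31 : 3 ≤ x1 := le_max_right _ _
  have hlx1 : 1 ≤ Real.log x1 := hl3.trans (Real.log_le_log (by norm_num) h31)
  refine ⟨80 * |C| + C2 + 4 * x1 ^ 2 * Real.log x1 ^ U, ?_⟩
  intro x hx
  have hx0' : 0 < x := by linarith
  have hlogx : 1 ≤ Real.log x := hl3.trans (Real.log_le_log (by norm_num) hx)
  have hlogpos : 0 < Real.log x := by linarith
  have hUpos : 0 < Real.log x ^ U := Real.rpow_pos_of_pos hlogpos U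
  have hxU : 0 < x / Real.log x ^ U := by positivity
  have hlU1 : 0 < Real.log x1 ^ U := Real.rpow_pos_of_pos (by linarith) _
  by_cases hxx : x1 ≤ x
  · obtain ⟨hR, hRx⟩ := hx0 x ((le_max_left _ _).trans hxx)
    obtain ⟨Z, hZ1, hZ2⟩ := hC x hx
    have hD : 0 ≤ x ^ θ := Real.rpow_nonneg hx0'.le _
    have hDx : x ^ θ ≤ x := by
      calc x ^ θ ≤ x ^ (1 : ℝ) := Real.rpow_le_rpow_of_exponent_le (by linarith) hθ
        _ = x := Real.rpow_one x
    have hR0 : 0 < x ^ κ := Real.rpow_pos_of_pos hx0' _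
    have hmain := descent hx hR hRx hD hDx Z
    have hdiv : x ^ θ / x ^ κ = x ^ (θ - κ) := by rw [Real.rpow_sub hx0']
    rw [hdiv, sum_add_distrib, ← mul_sum] at hmain
    have hpow : Real.log x ^ (U + 1) = Real.log x ^ U * Real.log x := by
      rw [Real.rpow_add hlogpos, Real.rpow_one]
    have h1 : Real.log x * (x / Real.log x ^ (U + 1)) = x / Real.log x ^ U := by
      rw [hpow]; field_simp
    have h2 : Real.log x * (x / x ^ κ * (x ^ κ / Real.log x ^ (U + 1))) =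
        x / Real.log x ^ U := by
      rw [hpow]; field_simp
    have h3 : x ^ (θ - κ) ≤ C2 * (x / Real.log x ^ U) := by
      refine le_trans ?_ (hC2' x hx)
      exact Real.rpow_le_rpow_of_exponent_le (by linarith) (by linarith)
    have hCa : C ≤ |C| := le_abs_self C
    have h4 : 16 * Real.log x * (∑ m ∈ mods (x ^ θ) (x ^ κ), maxE x m (Z m)) ≤
        16 * |C| * (x / Real.log x ^ U) := by
      have h5 : (∑ m ∈ mods (x ^ θ) (x ^ κ), maxE x m (Z m)) ≤
          |C| * (x / Real.log x ^ (U + 1)) :=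
        hZ2.trans (mul_le_mul_of_nonneg_right hCa (by positivity))
      calc 16 * Real.log x * (∑ m ∈ mods (x ^ θ) (x ^ κ), maxE x m (Z m)) ≤
          16 * Real.log x * (|C| * (x / Real.log x ^ (U + 1))) :=
            mul_le_mul_of_nonneg_left h5 (by positivity)
        _ = 16 * |C| * (Real.log x * (x / Real.log x ^ (U + 1))) := by ring
        _ = _ := by rw [h1]
    have h5 : 16 * Real.log x * (4 * x / x ^ κ * ∑ m ∈ mods (x ^ θ) (x ^ κ),
        ((Z m).card : ℝ) / (Nat.totient m : ℝ)) ≤ 64 * |C| * (x / Real.log x ^ U) := by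
      have h6 : (∑ m ∈ mods (x ^ θ) (x ^ κ), ((Z m).card : ℝ) / (Nat.totient m : ℝ)) ≤
          |C| * (x ^ κ / Real.log x ^ (U + 1)) :=
        hZ1.trans (mul_le_mul_of_nonneg_right hCa (by positivity))
      calc _ ≤ 16 * Real.log x * (4 * x / x ^ κ * (|C| * (x ^ κ / Real.log x ^ (U + 1)))) := by
            gcongr
        _ = 64 * |C| * (Real.log x * (x / x ^ κ * (x ^ κ / Real.log x ^ (U + 1)))) := by ring
        _ = _ := by rw [h2]
    have h6 : 0 ≤ 4 * x1 ^ 2 * Real.log x1 ^ U * (x / Real.log x ^ U) := by positivity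
    have h7 : (80 * |C| + C2 + 4 * x1 ^ 2 * Real.log x1 ^ U) * (x / Real.log x ^ U) =
        16 * |C| * (x / Real.log x ^ U) + 64 * |C| * (x / Real.log x ^ U) +
        C2 * (x / Real.log x ^ U) + 4 * x1 ^ 2 * Real.log x1 ^ U * (x / Real.log x ^ U) := by
      ring
    rw [h7]
    have h8 : 16 * Real.log x * (∑ m ∈ mods (x ^ θ) (x ^ κ), maxE x m (Z m) +
        4 * x / x ^ κ * ∑ m ∈ mods (x ^ θ) (x ^ κ), ((Z m).card : ℝ) / (Nat.totient m : ℝ)) =
        16 * Real.log x * (∑ m ∈ mods (x ^ θ) (x ^ κ), maxE x m (Z m)) +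
        16 * Real.log x * (4 * x / x ^ κ * ∑ m ∈ mods (x ^ θ) (x ^ κ),
        ((Z m).card : ℝ) / (Nat.totient m : ℝ)) := by ring
    rw [h8] at hmain
    linarith
  · rw [not_le] at hxx
    have hDx : x ^ (θ - κ) ≤ x := by
      calc x ^ (θ - κ) ≤ x ^ (1 : ℝ) := Real.rpow_le_rpow_of_exponent_le (by linarith) (by linarith)
        _ = x := Real.rpow_one x
    have h1 := small_x hx hDx
    have h2 : x ^ 2 ≤ x1 ^ 2 := by nlinarith
    have h3 : Real.log x ^ U ≤ Real.log x1 ^ U :=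
      Real.rpow_le_rpow hlogpos.le (Real.log_le_log hx0' hxx.le) hU.le
    have h4 : 1 ≤ Real.log x1 ^ U * (x / Real.log x ^ U) := by
      rw [← mul_div_assoc, le_div_iff₀ hUpos, one_mul]
      nlinarith
    have h5 : 4 * x ^ 2 ≤ 4 * x1 ^ 2 * (Real.log x1 ^ U * (x / Real.log x ^ U)) := by
      nlinarith [sq_nonneg x1]
    have h6 : 0 ≤ (80 * |C| + C2) * (x / Real.log x ^ U) := by positivity
    calc _ ≤ 4 * x ^ 2 := h1
      _ ≤ 4 * x1 ^ 2 * (Real.log x1 ^ U * (x / Real.log x ^ U)) := h5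
      _ ≤ _ := by linarith [h6]

theorem main :
    (∀ θ κ : ℝ, 0 < κ → κ ≤ θ → θ ≤ 1 → Outside θ κ → Admissible (θ - κ)) ∧
    ((∃ α : ℝ, 1 / 2 < α ∧ α < 1 ∧ Admissible α) ↔
      ∃ θ κ : ℝ, 0 < κ ∧ 1 / 2 + κ < θ ∧ θ < 1 ∧ Outside θ κ) ∧
    ((∀ ε : ℝ, 0 < ε → ε < 1 → Admissible (1 - ε)) ↔
      ∀ κ : ℝ, 0 < κ → κ < 1 / 2 → Outside (1 - κ) κ) := by
  refine ⟨fun θ κ h1 h2 h3 h4 => outside_descent h1 h2 h3 h4, ⟨?_, ?_⟩, ⟨?_, ?_⟩⟩
  · rintro ⟨α, h1, h2, h3⟩
    exact ⟨α, (α - 1 / 2) / 2, by linarith, by linarith, h2, h3.outside⟩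
  · rintro ⟨θ, κ, h1, h2, h3, h4⟩
    exact ⟨θ - κ, by linarith, by linarith, outside_descent h1 (by linarith) h3.le h4⟩
  · intro h κ h1 h2
    exact (h κ h1 (by linarith)).outside
  · intro h ε h1 h2
    have h3 := outside_descent (by linarith) (by linarith) (by linarith)
      (h (ε / 2) (by linarith) (by linarith))
    exact h3.mono (by linarith)

end Pool.Agent.Y856.Ex
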